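import Mathlib

set_option autoImplicit false

open Matrix
open scoped Matrix.Norms.L2Operator BigOperators

namespace Pool.Agent.Results.MP_c77999_an.StrictlyIncreasing

/-- The Schur multiplier norm of `M`: the supremum of `‖M ⊙ A‖` over all complex contractions `A`
(`‖·‖` is the operator norm on `ℂⁿ` with the Euclidean norm). -/
noncomputable def schurNorm {n : ℕ} (M : Matrix (Fin n) (Fin n) ℂ) : ℝ :=
  sSup {x : ℝ | ∃ A : Matrix (Fin n) (Fin n) ℂ, ‖A‖ ≤ 1 ∧ x = ‖M ⊙ A‖}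

/-- All entries are `1` or `-1`. -/
def IsSign {n : ℕ} (M : Matrix (Fin n) (Fin n) ℂ) : Prop := ∀ i j, M i j = 1 ∨ M i j = -1

/-- `r n` is the largest Schur multiplier norm of an `n × n` sign matrix. -/
noncomputable def r (n : ℕ) : ℝ :=
  sSup {x : ℝ | ∃ M : Matrix (Fin n) (Fin n) ℂ, IsSign M ∧ x = schurNorm M}

lemma form_le {m : ℕ} (T : Matrix (Fin m) (Fin m) ℂ) (a b : Fin m → ℂ) :
    ‖∑ i, ∑ j, star (a i) * T i j * b j‖ ≤
      ‖T‖ * (Real.sqrt (∑ i, ‖a i‖^2) * Real.sqrt (∑ j, ‖b j‖^2)) := by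
  have h1 := Matrix.l2_opNorm_mulVec T (WithLp.toLp 2 b)
  have h2 := norm_inner_le_norm (𝕜 := ℂ) (WithLp.toLp 2 a : EuclideanSpace ℂ (Fin m))
    (WithLp.toLp 2 (T *ᵥ b))
  have h3 : inner ℂ (WithLp.toLp 2 a : EuclideanSpace ℂ (Fin m)) (WithLp.toLp 2 (T *ᵥ b))
      = ∑ i, ∑ j, star (a i) * T i j * b j := by
    simp only [PiLp.inner_apply, RCLike.inner_apply, Matrix.mulVec, dotProduct]
    refine Finset.sum_congr rfl fun i _ => ?_
    rw [Finset.sum_mul]
    refine Finset.sum_congr rfl fun j _ => ?_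
    simp only [starRingEnd_apply]
    ring
  rw [h3] at h2
  rw [EuclideanSpace.norm_eq (WithLp.toLp 2 b)] at h1
  rw [EuclideanSpace.norm_eq (WithLp.toLp 2 a)] at h2
  calc _ ≤ _ := h2
    _ ≤ Real.sqrt (∑ i, ‖a i‖^2) * (‖T‖ * Real.sqrt (∑ j, ‖b j‖^2)) := by
        refine mul_le_mul_of_nonneg_left ?_ (Real.sqrt_nonneg _)
        exact h1
    _ = _ := by ring

/-- A convenient criterion for being a contraction. -/
lemma norm_le_one_of {m : ℕ} (T : Matrix (Fin m) (Fin m) ℂ)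
    (h : ∀ b : Fin m → ℂ, ∑ i, ‖(T *ᵥ b) i‖^2 ≤ ∑ j, ‖b j‖^2) : ‖T‖ ≤ 1 := by
  rw [← l2_opNorm_toEuclideanCLM]
  refine ContinuousLinearMap.opNorm_le_bound _ zero_le_one fun x => ?_
  rw [one_mul, EuclideanSpace.norm_eq, EuclideanSpace.norm_eq]
  exact Real.sqrt_le_sqrt (h x.ofLp)

lemma sum_le_of_norm_le_one {m : ℕ} (T : Matrix (Fin m) (Fin m) ℂ) (hT : ‖T‖ ≤ 1)
    (b : Fin m → ℂ) : ∑ i, ‖(T *ᵥ b) i‖^2 ≤ ∑ j, ‖b j‖^2 := by
  have h1 := Matrix.l2_opNorm_mulVec T (WithLp.toLp 2 b)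
  have h2 : ‖(WithLp.toLp 2 (T *ᵥ b) : EuclideanSpace ℂ (Fin m))‖ ≤ ‖(WithLp.toLp 2 b : EuclideanSpace ℂ (Fin m))‖ :=
    le_trans h1 (mul_le_of_le_one_left (norm_nonneg _) hT)
  rw [EuclideanSpace.norm_eq, EuclideanSpace.norm_eq] at h2
  exact (Real.sqrt_le_sqrt_iff (Finset.sum_nonneg fun i _ => sq_nonneg _)).1 h2

/-- append one coordinate -/
def ext {n : ℕ} (u : Fin n → ℂ) (c : ℂ) : Fin (n+1) → ℂ :=
  Fin.lastCases (motive := fun _ => ℂ) c u

@[simp] lemma ext_castSucc {n : ℕ} (u : Fin n → ℂ) (c : ℂ) (i : Fin n) :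
    ext u c i.castSucc = u i := by simp [ext]

@[simp] lemma ext_last {n : ℕ} (u : Fin n → ℂ) (c : ℂ) :
    ext u c (Fin.last n) = c := by simp [ext]

/-- border a matrix by a column `x`, a row `y` and a corner `c`. -/
def bord {n : ℕ} (M : Matrix (Fin n) (Fin n) ℂ) (x y : Fin n → ℂ) (c : ℂ) :
    Matrix (Fin (n+1)) (Fin (n+1)) ℂ :=
  fun a => Fin.lastCases (motive := fun _ => Fin (n+1) → ℂ) (ext y c) (fun i => ext (M i) (x i)) a

@[simp] lemma bord_cc {n : ℕ} (M : Matrix (Fin n) (Fin n) ℂ) (x y : Fin n → ℂ) (c : ℂ)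
    (i j : Fin n) : bord M x y c i.castSucc j.castSucc = M i j := by simp [bord]
@[simp] lemma bord_cl {n : ℕ} (M : Matrix (Fin n) (Fin n) ℂ) (x y : Fin n → ℂ) (c : ℂ)
    (i : Fin n) : bord M x y c i.castSucc (Fin.last n) = x i := by simp [bord]
@[simp] lemma bord_lc {n : ℕ} (M : Matrix (Fin n) (Fin n) ℂ) (x y : Fin n → ℂ) (c : ℂ)
    (j : Fin n) : bord M x y c (Fin.last n) j.castSucc = y j := by simp [bord]
@[simp] lemma bord_ll {n : ℕ} (M : Matrix (Fin n) (Fin n) ℂ) (x y : Fin n → ℂ) (c : ℂ) :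
    bord M x y c (Fin.last n) (Fin.last n) = c := by simp [bord]

lemma norm_bord {n : ℕ} (A : Matrix (Fin n) (Fin n) ℂ) (hA : ‖A‖ ≤ 1) :
    ‖bord A 0 0 1‖ ≤ 1 := by
  refine norm_le_one_of _ fun b => ?_
  have h := sum_le_of_norm_le_one A hA (fun j => b j.castSucc)
  rw [Fin.sum_univ_castSucc, Fin.sum_univ_castSucc]
  have h1 : ∀ i : Fin n, (bord A 0 0 1 *ᵥ b) i.castSucc = (A *ᵥ fun j => b j.castSucc) i := by
    intro i
    simp [Matrix.mulVec, dotProduct, Fin.sum_univ_castSucc]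
  have h2 : (bord A 0 0 1 *ᵥ b) (Fin.last n) = b (Fin.last n) := by
    simp [Matrix.mulVec, dotProduct, Fin.sum_univ_castSucc]
  simp only [h1, h2]
  linarith

/-- The reflection `1 - 2 τ w w*`. -/
def refl {m : ℕ} (τ : ℝ) (w : Fin m → ℂ) : Matrix (Fin m) (Fin m) ℂ :=
  1 - (2 * (τ:ℂ)) • vecMulVec w (star w)

lemma norm_refl {m : ℕ} (τ : ℝ) (w : Fin m → ℂ) (h : τ * ∑ i, ‖w i‖^2 = 1) :
    ‖refl τ w‖ ≤ 1 := by
  have hw : star w ⬝ᵥ w = ((∑ i, ‖w i‖^2 : ℝ) : ℂ) := by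
    simp only [dotProduct, Pi.star_apply]
    push_cast
    refine Finset.sum_congr rfl fun i _ => ?_
    rw [← Complex.conj_mul']
    rfl
  have hH : (refl τ w)ᴴ = refl τ w := by
    unfold refl
    rw [conjTranspose_sub, conjTranspose_one, conjTranspose_smul, conjTranspose_vecMulVec]
    simp
  have hHH : (refl τ w)ᴴ * refl τ w = 1 := by
    rw [hH]
    unfold refl
    rw [sub_mul, mul_sub, mul_sub, one_mul, mul_one, one_mul, smul_mul_smul_comm,
      vecMulVec_mul_vecMulVec, hw]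
    have h' : (τ:ℂ) * ((∑ i, ‖w i‖^2 : ℝ) : ℂ) = 1 := by
      rw [← Complex.ofReal_mul, h, Complex.ofReal_one]
    ext i j
    simp only [Matrix.sub_apply, Matrix.smul_apply, smul_eq_mul, vecMulVec_apply, Pi.smul_apply]
    linear_combination (4 * (τ:ℂ) * w i * star w j) * h'
  have h1 := l2_opNorm_conjTranspose_mul_self (refl τ w)
  rw [hHH] at h1
  have h2 : ‖(1 : Matrix (Fin m) (Fin m) ℂ)‖ ≤ 1 := by
    refine norm_le_one_of _ fun b => ?_
    simp
  nlinarith [norm_nonneg (refl τ w)]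

/-- sign choice -/
lemma exists_signs {n : ℕ} (N : Fin n → Fin n → ℝ) (s : Finset (Fin n)) :
    ∃ x : Fin n → ℝ, (∀ i, x i = 1 ∨ x i = -1) ∧
      ∑ i ∈ s, ∑ k ∈ s, x i * x k * N i k ≤ ∑ i ∈ s, N i i := by
  classical
  induction s using Finset.induction_on with
  | empty => exact ⟨fun _ => 1, fun _ => Or.inl rfl, by simp⟩
  | insert a s ha ih =>
    obtain ⟨x, hx, hle⟩ := ih
    set c : ℝ := ∑ k ∈ s, x k * (N a k + N k a) with hc
    obtain ⟨σ, hσ, hσc⟩ : ∃ σ : ℝ, (σ = 1 ∨ σ = -1) ∧ σ * c ≤ 0 := by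
      rcases le_total c 0 with h | h
      · exact ⟨1, Or.inl rfl, by linarith⟩
      · exact ⟨-1, Or.inr rfl, by linarith⟩
    refine ⟨Function.update x a σ, ?_, ?_⟩
    · intro i
      by_cases hi : i = a
      · subst hi; simpa using hσ
      · rw [Function.update_of_ne hi]; exact hx i
    · have hne : ∀ k ∈ s, k ≠ a := fun k hk h => ha (h ▸ hk)
      have e1 : ∀ k ∈ s, Function.update x a σ k = x k := fun k hk =>
        Function.update_of_ne (hne k hk) _ _
      have e0 : ∀ f : Fin n → ℝ, ∑ i ∈ insert a s, f i = f a + ∑ i ∈ s, f i :=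
        fun f => Finset.sum_insert ha
      have e2 : ∑ k ∈ insert a s, Function.update x a σ a * Function.update x a σ k * N a k
          = N a a + σ * ∑ k ∈ s, x k * N a k := by
        rw [Finset.sum_insert ha, Finset.mul_sum]
        congr 1
        · rw [Function.update_self]
          rcases hσ with h | h <;> rw [h] <;> ring
        · refine Finset.sum_congr rfl fun k hk => ?_
          rw [e1 k hk, Function.update_self]; ring
      have e3 : ∑ i ∈ s, ∑ k ∈ insert a s, Function.update x a σ i * Function.update x a σ k * N i k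
          = ∑ i ∈ s, ∑ k ∈ s, x i * x k * N i k + σ * ∑ k ∈ s, x k * N k a := by
        rw [Finset.mul_sum, ← Finset.sum_add_distrib]
        refine Finset.sum_congr rfl fun i hi => ?_
        rw [Finset.sum_insert ha, e1 i hi, Function.update_self, add_comm]
        congr 1
        · refine Finset.sum_congr rfl fun k hk => ?_
          rw [e1 k hk]
        · ring
      refine le_of_eq_of_le (e0 _) ?_
      rw [e0 (fun i => N i i), e2, e3]
      have e4 : c = ∑ k ∈ s, x k * N a k + ∑ k ∈ s, x k * N k a := by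
        rw [hc, ← Finset.sum_add_distrib]
        refine Finset.sum_congr rfl fun k _ => ?_
        ring
      rw [e4] at hσc
      linarith

/-- The sign selection, with the quadratic form attached to an extremal pair. -/
lemma select {n : ℕ} (w : Fin n → ℂ) (K : Fin n → Fin n → ℂ) (r : ℝ) (hr : 0 < r)
    (hK : ∀ i, K i i = r * w i) :
    ∃ x : Fin n → ℝ, (∀ i, x i = 1 ∨ x i = -1) ∧ ∃ q : Fin n → ℂ,
      (∑ i, ∑ k, star (w i * q i) * q k * K i k).re ≤ (∑ i, if w i = 0 then (0:ℝ) else 1) / r ∧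
      (∑ i, star (w i * q i) * (x i : ℂ)) = (((∑ i, if w i = 0 then (0:ℝ) else 1) / r : ℝ) : ℂ) ∧
      (∑ i, (w i * q i) * (x i : ℂ)) = (((∑ i, if w i = 0 then (0:ℝ) else 1) / r : ℝ) : ℂ) := by
  set c : Fin n → ℂ := fun i => 1 / (r * w i) with hc
  have hrC : (r : ℂ) ≠ 0 := by exact_mod_cast hr.ne'
  have hwc : ∀ i, w i * c i = (((if w i = 0 then (0:ℝ) else 1) / r : ℝ) : ℂ) := by
    intro i
    by_cases h : w i = 0
    · simp [h]
    · simp only [hc, h, if_false]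
      push_cast
      field_simp
  obtain ⟨x, hx, hle⟩ := exists_signs
    (fun i k => (star (w i * c i) * c k * K i k).re) Finset.univ
  have hx2 : ∀ i, ((x i : ℂ)) * (x i : ℂ) = 1 := by
    intro i
    rcases hx i with h | h <;> rw [h] <;> norm_num
  refine ⟨x, hx, fun i => (x i : ℂ) * c i, ?_, ?_, ?_⟩
  · have e1 : (∑ i, ∑ k, star (w i * ((x i : ℂ) * c i)) * ((x k : ℂ) * c k) * K i k).re
        = ∑ i, ∑ k, x i * x k * (star (w i * c i) * c k * K i k).re := by
      rw [Complex.re_sum]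
      refine Finset.sum_congr rfl fun i _ => ?_
      rw [Complex.re_sum]
      refine Finset.sum_congr rfl fun k _ => ?_
      have : star (w i * ((x i : ℂ) * c i)) * ((x k : ℂ) * c k) * K i k
          = ((x i * x k : ℝ) : ℂ) * (star (w i * c i) * c k * K i k) := by
        have hs : star (w i * ((x i : ℂ) * c i)) = (x i : ℂ) * star (w i * c i) := by
          simp only [star_mul', RCLike.star_def, Complex.conj_ofReal]
          ring
        rw [hs]
        push_cast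
        ring
      rw [this, Complex.re_ofReal_mul]
    rw [e1]
    refine hle.trans (le_of_eq ?_)
    rw [Finset.sum_div]
    refine Finset.sum_congr rfl fun i _ => ?_
    have : star (w i * c i) * c i * K i i = (((if w i = 0 then (0:ℝ) else 1) / r : ℝ) : ℂ) := by
      rw [hK, hwc]
      have hh : c i * ((r : ℂ) * w i) = r * (w i * c i) := by ring
      rw [mul_assoc, hh, hwc]
      simp only [RCLike.star_def, Complex.conj_ofReal]
      by_cases h : w i = 0
      · simp [h]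
      · simp only [h, if_false]
        push_cast
        field_simp
    rw [this, Complex.ofReal_re]
  · rw [Finset.sum_div, Complex.ofReal_sum]
    refine Finset.sum_congr rfl fun i _ => ?_
    rw [← hwc i]
    have h3 : star (w i * c i) = w i * c i := by rw [hwc i]; simp
    have hs : star (w i * ((x i : ℂ) * c i)) = (x i : ℂ) * star (w i * c i) := by
      simp only [star_mul', RCLike.star_def, Complex.conj_ofReal]
      ring
    rw [hs, h3]
    linear_combination (w i * c i) * hx2 i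
  · rw [Finset.sum_div, Complex.ofReal_sum]
    refine Finset.sum_congr rfl fun i _ => ?_
    rw [← hwc i]
    linear_combination (w i * c i) * hx2 i

lemma refl_mul_mul_refl {m : ℕ} (τ₁ τ₂ : ℝ) (w₁ w₂ : Fin m → ℂ) (D : Matrix (Fin m) (Fin m) ℂ)
    (a b : Fin m) :
    (refl τ₁ w₁ * D * refl τ₂ w₂) a b = D a b - 2 * τ₁ * (w₁ a * (star w₁ ᵥ* D) b)
      - 2 * τ₂ * ((D *ᵥ w₂) a * star (w₂ b))
      + 4 * τ₁ * τ₂ * (star w₁ ⬝ᵥ (D *ᵥ w₂)) * (w₁ a * star (w₂ b)) := by
  unfold refl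
  rw [sub_mul, mul_sub, one_mul, mul_one, smul_mul_assoc, mul_smul_comm, sub_mul,
    smul_mul_assoc]
  rw [vecMulVec_mul, vecMulVec_mul_vecMulVec, mul_vecMulVec]
  simp only [Matrix.sub_apply, Matrix.smul_apply, smul_eq_mul, vecMulVec_apply, Pi.smul_apply,
    Pi.star_apply]
  rw [← dotProduct_mulVec]
  ring

lemma form_ext {n : ℕ} (M : Matrix (Fin n) (Fin n) ℂ) (x y u v f g : Fin n → ℂ) (ε : ℝ)
    (s t : ℂ) :
    ∑ a, ∑ b, star (ext u ε a) * (bord M x y 1 a b * (ext f s a * ext g t b)) * ext v ε b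
      = ∑ i, ∑ j, star (u i) * (M i j * (f i * g j)) * v j
        + ε * t * ∑ i, star (u i) * x i * f i + ε * s * ∑ j, y j * g j * v j
        + ε^2 * s * t := by
  rw [Fin.sum_univ_castSucc]
  simp only [Fin.sum_univ_castSucc, ext_castSucc, ext_last, bord_cc, bord_cl, bord_lc, bord_ll]
  rw [Finset.sum_add_distrib, Finset.mul_sum, Finset.mul_sum]
  simp only [RCLike.star_def, Complex.conj_ofReal]
  have e1 : ∑ i, (starRingEnd ℂ) (u i) * (x i * (f i * t)) * (ε:ℂ)
      = ∑ i, (ε:ℂ) * t * ((starRingEnd ℂ) (u i) * x i * f i) :=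
    Finset.sum_congr rfl fun i _ => by ring
  have e2 : ∑ j, (ε:ℂ) * (y j * (s * g j)) * v j = ∑ j, (ε:ℂ) * s * (y j * g j * v j) :=
    Finset.sum_congr rfl fun i _ => by ring
  rw [e1, e2]
  ring

/-- The value of the form at the perturbed data. -/
lemma value {n : ℕ} (M A : Matrix (Fin n) (Fin n) ℂ) (x y u v p z : Fin n → ℂ) (r ε τ₁ τ₂ : ℝ)
    (hform : ∑ i, ∑ j, star (u i) * (M i j * A i j) * v j = r) :
    ∑ a, ∑ b, star (ext u ε a) * (bord M x y 1 ⊙
        (refl τ₁ (ext (fun i => (ε/2 : ℂ) * p i) 1) * bord A 0 0 1 *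
          refl τ₂ (ext (fun i => (ε/2 : ℂ) * z i) 1))) a b * ext v ε b
      = r + ε^2
        - 2 * τ₁ * (ε^2 * ((∑ i, ∑ j, star (u i) * (M i j * (p i * ∑ k, star (p k) * A k j)) * v j)/4
            + (∑ i, star (u i) * x i * p i)/2
            + (∑ j, y j * (∑ k, star (p k) * A k j) * v j)/2 + 1))
        - 2 * τ₂ * (ε^2 * ((∑ i, ∑ j, star (u i) * (M i j * ((∑ k, A i k * z k) * star (z j))) * v j)/4
            + (∑ i, star (u i) * x i * (∑ k, A i k * z k))/2
            + (∑ j, y j * star (z j) * v j)/2 + 1))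
        + 4 * τ₁ * τ₂ * (ε^2/4 * (∑ k, star (p k) * ∑ l, A k l * z l) + 1) *
            (ε^2 * ((∑ i, ∑ j, star (u i) * (M i j * (p i * star (z j))) * v j)/4
            + (∑ i, star (u i) * x i * p i)/2
            + (∑ j, y j * star (z j) * v j)/2 + 1)) := by
  set w₁ : Fin (n+1) → ℂ := ext (fun i => (ε/2 : ℂ) * p i) 1 with hw₁
  set w₂ : Fin (n+1) → ℂ := ext (fun i => (ε/2 : ℂ) * z i) 1 with hw₂
  have hsw₁ : star w₁ = ext (fun i => (ε/2 : ℂ) * star (p i)) 1 := by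
    funext a
    refine Fin.lastCases ?_ (fun i => ?_) a
    · simp [hw₁]
    · simp [hw₁]
  have hsw₂ : ∀ b, star (w₂ b) = ext (fun i => (ε/2 : ℂ) * star (z i)) 1 b := by
    intro a
    refine Fin.lastCases ?_ (fun i => ?_) a
    · simp [hw₂]
    · simp [hw₂]
  have hD1 : star w₁ ᵥ* bord A 0 0 1 = ext (fun j => (ε/2 : ℂ) * ∑ k, star (p k) * A k j) 1 := by
    rw [hsw₁]
    funext a
    refine Fin.lastCases ?_ (fun i => ?_) a
    · simp [Matrix.vecMul, dotProduct, Fin.sum_univ_castSucc]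
    · simp only [Matrix.vecMul, dotProduct, Fin.sum_univ_castSucc, ext_castSucc, ext_last,
        bord_cc, bord_lc, Pi.zero_apply, mul_zero, add_zero]
      rw [Finset.mul_sum]
      exact Finset.sum_congr rfl fun k _ => by ring
  have hD2 : bord A 0 0 1 *ᵥ w₂ = ext (fun i => (ε/2 : ℂ) * ∑ k, A i k * z k) 1 := by
    rw [hw₂]
    funext a
    refine Fin.lastCases ?_ (fun i => ?_) a
    · simp [Matrix.mulVec, dotProduct, Fin.sum_univ_castSucc]
    · simp only [Matrix.mulVec, dotProduct, Fin.sum_univ_castSucc, ext_castSucc, ext_last,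
        bord_cc, bord_cl, Pi.zero_apply, zero_mul, add_zero]
      rw [Finset.mul_sum]
      exact Finset.sum_congr rfl fun k _ => by ring
  have hD3 : star w₁ ⬝ᵥ (bord A 0 0 1 *ᵥ w₂)
      = (ε^2/4 * (∑ k, star (p k) * ∑ l, A k l * z l) + 1 : ℂ) := by
    rw [hD2, hsw₁]
    simp only [dotProduct, Fin.sum_univ_castSucc, ext_castSucc, ext_last, mul_one]
    rw [Finset.mul_sum]
    congr 1
    exact Finset.sum_congr rfl fun k _ => by ring
  have hentry : ∀ a b, star (ext u ε a) * (bord M x y 1 ⊙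
        (refl τ₁ w₁ * bord A 0 0 1 * refl τ₂ w₂)) a b * ext v ε b
      = star (ext u ε a) * (bord M x y 1 a b * bord A 0 0 1 a b) * ext v ε b
        - 2 * τ₁ * (star (ext u ε a) * (bord M x y 1 a b *
            (ext (fun i => (ε/2 : ℂ) * p i) 1 a *
              ext (fun j => (ε/2 : ℂ) * ∑ k, star (p k) * A k j) 1 b)) * ext v ε b)
        - 2 * τ₂ * (star (ext u ε a) * (bord M x y 1 a b *
            (ext (fun i => (ε/2 : ℂ) * ∑ k, A i k * z k) 1 a *
              ext (fun i => (ε/2 : ℂ) * star (z i)) 1 b)) * ext v ε b)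
        + 4 * τ₁ * τ₂ * (ε^2/4 * (∑ k, star (p k) * ∑ l, A k l * z l) + 1) *
          (star (ext u ε a) * (bord M x y 1 a b *
            (ext (fun i => (ε/2 : ℂ) * p i) 1 a *
              ext (fun i => (ε/2 : ℂ) * star (z i)) 1 b)) * ext v ε b) := by
    intro a b
    rw [Matrix.hadamard_apply, refl_mul_mul_refl, hD1, hD2, hsw₂ b]
    have h3 := hD3
    rw [hD2] at h3
    rw [h3, ← hw₁]
    ring
  have hsplit : ∀ (c₁ c₂ c₃ : ℂ) (f₀ f₁ f₂ f₃ : Fin (n+1) → Fin (n+1) → ℂ),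
      ∑ a, ∑ b, (f₀ a b - c₁ * f₁ a b - c₂ * f₂ a b + c₃ * f₃ a b)
        = ∑ a, ∑ b, f₀ a b - c₁ * ∑ a, ∑ b, f₁ a b - c₂ * ∑ a, ∑ b, f₂ a b
          + c₃ * ∑ a, ∑ b, f₃ a b := by
    intro c₁ c₂ c₃ f₀ f₁ f₂ f₃
    simp only [Finset.sum_add_distrib, Finset.sum_sub_distrib, Finset.mul_sum]
  rw [Finset.sum_congr rfl fun a _ => Finset.sum_congr rfl fun b _ => hentry a b]
  rw [hsplit, form_ext, form_ext, form_ext]
  have h0 : ∑ a, ∑ b, star (ext u ε a) * (bord M x y 1 a b * bord A 0 0 1 a b) * ext v ε b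
      = r + ε^2 := by
    rw [Fin.sum_univ_castSucc]
    simp only [Fin.sum_univ_castSucc, ext_castSucc, ext_last, bord_cc, bord_cl, bord_lc, bord_ll,
      Pi.zero_apply, mul_zero, zero_mul, add_zero, hform]
    simp
    ring
  rw [h0]
  have sg : ∀ f g : Fin n → ℂ,
      ∑ i, ∑ j, star (u i) * (M i j * ((ε/2 : ℂ) * f i * ((ε/2 : ℂ) * g j))) * v j
      = ε^2/4 * ∑ i, ∑ j, star (u i) * (M i j * (f i * g j)) * v j := by
    intro f g
    rw [Finset.mul_sum]
    refine Finset.sum_congr rfl fun i _ => ?_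
    rw [Finset.mul_sum]
    exact Finset.sum_congr rfl fun j _ => by ring
  have sg1 : ∀ f : Fin n → ℂ,
      ∑ i, star (u i) * x i * ((ε/2 : ℂ) * f i) = ε/2 * ∑ i, star (u i) * x i * f i := by
    intro f
    rw [Finset.mul_sum]
    exact Finset.sum_congr rfl fun j _ => by ring
  have sg2 : ∀ f : Fin n → ℂ,
      ∑ j, y j * ((ε/2 : ℂ) * f j) * v j = ε/2 * ∑ j, y j * f j * v j := by
    intro f
    rw [Finset.mul_sum]
    exact Finset.sum_congr rfl fun j _ => by ring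
  have s1 := sg p (fun j => ∑ k, star (p k) * A k j)
  have s2 := sg (fun i => ∑ k, A i k * z k) (fun j => star (z j))
  have s3 := sg p (fun j => star (z j))
  have s4 := sg1 p
  have s5 := sg2 (fun j => ∑ k, star (p k) * A k j)
  have s6 := sg1 (fun i => ∑ k, A i k * z k)
  have s7 := sg2 (fun j => star (z j))
  beta_reduce at s1 s2 s3 s4 s5 s6 s7
  rw [s1, s2, s3, s4, s5, s6, s7]
  ring

lemma sign_norm {z : ℂ} (h : z = 1 ∨ z = -1) : ‖z‖ = 1 := by
  rcases h with h | h <;> rw [h] <;> simp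

/-- `|supp u| ≥ r²`. -/
lemma supp_bound {n : ℕ} (A : Matrix (Fin n) (Fin n) ℂ) (hA : ‖A‖ ≤ 1) (r : ℝ)
    (w : Fin n → ℂ) (hw : ∑ i, ‖w i‖^2 = 1) (b : Fin n → Fin n → ℂ)
    (hb : ∀ i, ∑ j, ‖b i j‖^2 ≤ 1) (h : ∀ i, ‖(A *ᵥ b i) i‖ = r * ‖w i‖) :
    r^2 ≤ ∑ i, if w i = 0 then (0:ℝ) else 1 := by
  have h1 : ∀ i, r^2 * ‖w i‖^2 ≤ if w i = 0 then (0:ℝ) else 1 := by
    intro i
    by_cases hi : w i = 0
    · simp [hi]
    · simp only [hi, if_false]
      have h3 := sum_le_of_norm_le_one A hA (b i)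
      have h4 : ‖(A *ᵥ b i) i‖^2 ≤ ∑ k, ‖(A *ᵥ b i) k‖^2 :=
        Finset.single_le_sum (f := fun k => ‖(A *ᵥ b i) k‖^2) (fun k _ => sq_nonneg _)
          (Finset.mem_univ i)
      rw [h i] at h4
      have h5 := hb i
      nlinarith
  calc r^2 = ∑ i, r^2 * ‖w i‖^2 := by rw [← Finset.mul_sum, hw, mul_one]
    _ ≤ _ := Finset.sum_le_sum fun i _ => h1 i

lemma key {n : ℕ} (M A : Matrix (Fin n) (Fin n) ℂ) (hM : ∀ i j, M i j = 1 ∨ M i j = -1)
    (hA : ‖A‖ ≤ 1) (r : ℝ) (hr : 0 < r) (u v : Fin n → ℂ)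
    (hu : ∑ i, ‖u i‖^2 = 1) (hv : ∑ i, ‖v i‖^2 = 1)
    (h1 : ∀ i, ∑ j, M i j * A i j * v j = r * u i)
    (h2 : ∀ j, ∑ i, star (u i) * (M i j * A i j) = r * star (v j)) (R : ℝ)
    (hR : ∀ M' : Matrix (Fin (n+1)) (Fin (n+1)) ℂ, (∀ i j, M' i j = 1 ∨ M' i j = -1) →
      ∀ B : Matrix (Fin (n+1)) (Fin (n+1)) ℂ, ‖B‖ ≤ 1 → ‖M' ⊙ B‖ ≤ R) : r < R := by
  by_contra hRr
  push Not at hRr
  have hSu : r^2 ≤ ∑ i, if u i = 0 then (0:ℝ) else 1 := by
    refine supp_bound A hA r u hu (fun i j => M i j * v j) ?_ ?_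
    · intro i
      simp only [norm_mul, sign_norm (hM i _), one_mul]
      exact hv.le
    · intro i
      have : (A *ᵥ fun j => M i j * v j) i = ∑ j, M i j * A i j * v j := by
        simp only [Matrix.mulVec, dotProduct]
        exact Finset.sum_congr rfl fun j _ => by ring
      rw [this, h1 i, norm_mul, Complex.norm_real, Real.norm_eq_abs, abs_of_pos hr]
  have hSv : r^2 ≤ ∑ i, if star (v i) = 0 then (0:ℝ) else 1 := by
    refine supp_bound Aᵀ ?_ r (fun i => star (v i)) (by simpa using hv)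
      (fun j i => M i j * star (u i)) ?_ ?_
    · have h3 : Aᵀ = (Aᴴ).map star := by
        ext i j
        simp
      refine norm_le_one_of _ fun b => ?_
      have h4 := sum_le_of_norm_le_one Aᴴ (by rw [l2_opNorm_conjTranspose]; exact hA)
        (fun j => star (b j))
      simp only [norm_star] at h4
      refine le_trans (le_of_eq ?_) h4
      refine Finset.sum_congr rfl fun i _ => ?_
      have : (Aᴴ *ᵥ fun j => star (b j)) i = star ((Aᵀ *ᵥ b) i) := by
        simp only [Matrix.mulVec, dotProduct, star_sum, star_mul', Matrix.conjTranspose_apply,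
          Matrix.transpose_apply]
      rw [this, norm_star]
    · intro j
      simp only [norm_mul, sign_norm (hM _ j), one_mul, norm_star]
      exact hu.le
    · intro j
      have : (Aᵀ *ᵥ fun i => M i j * star (u i)) j = ∑ i, star (u i) * (M i j * A i j) := by
        simp only [Matrix.mulVec, dotProduct, Matrix.transpose_apply]
        exact Finset.sum_congr rfl fun j _ => by ring
      rw [this, h2 j, norm_mul, Complex.norm_real, Real.norm_eq_abs, abs_of_pos hr]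
  obtain ⟨x, hx, q, hq1, hq2, hq3⟩ := select u (fun i k => ∑ j, M i j * A k j * v j) r hr h1
  obtain ⟨y, hy, z, hz1, hz2, hz3⟩ := select (fun j => star (v j))
    (fun j k => ∑ i, star (u i) * (M i j * A i k)) r hr h2
  set Su : ℝ := ∑ i, if u i = 0 then (0:ℝ) else 1 with hSudef
  set Sv : ℝ := ∑ i, if star (v i) = 0 then (0:ℝ) else 1 with hSvdef
  set c₁ : ℂ := ∑ i, ∑ j, star (u i) * (M i j * (star (q i) * star (z j))) * v j with hc₁
  set c₂ : ℂ := ∑ i, star (u i) * x i * (∑ k, A i k * z k) with hc₂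
  set c₃ : ℂ := ∑ j, y j * (∑ k, q k * A k j) * v j with hc₃
  obtain ⟨t, ht, htc⟩ : ∃ t : ℝ, (t = 1 ∨ t = -1) ∧ 0 ≤ t * (c₁ - c₂ - c₃).re := by
    rcases le_total 0 (c₁ - c₂ - c₃).re with h | h
    · exact ⟨1, Or.inl rfl, by linarith⟩
    · exact ⟨-1, Or.inr rfl, by linarith⟩
  have ht2 : (t:ℂ) * t = 1 := by rcases ht with h | h <;> rw [h] <;> norm_num
  -- the five constants
  set P : ℂ := ∑ i, ∑ k, star (u i * q i) * q k * ∑ j, M i j * A k j * v j with hP
  set Z : ℂ := ∑ j, ∑ k, star (star (v j) * z j) * z k * ∑ i, star (u i) * (M i j * A i k) with hZ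
  set Q : ℂ := ∑ k, q k * ∑ l, A k l * (t * z l) with hQ
  set α₁ : ℂ := P/4 + (Su/r : ℝ)/2 + t*c₃/2 + 1 with hα₁
  set α₂ : ℂ := Z/4 + t*c₂/2 + (Sv/r : ℝ)/2 + 1 with hα₂
  set α₃ : ℂ := t*c₁/4 + (Su/r : ℝ)/2 + (Sv/r : ℝ)/2 + 1 with hα₃
  set Np : ℝ := ∑ i, ‖q i‖^2 with hNp
  set Nz : ℝ := ∑ i, ‖z i‖^2 with hNz
  have hNp0 : 0 ≤ Np := Finset.sum_nonneg fun i _ => sq_nonneg _
  have hNz0 : 0 ≤ Nz := Finset.sum_nonneg fun i _ => sq_nonneg _
  set g : ℝ → ℝ := fun ε => (1 - 2 * ((1/(ε^2/4*Np+1) : ℝ) : ℂ) * α₁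
    - 2 * ((1/(ε^2/4*Nz+1) : ℝ) : ℂ) * α₂
    + 4 * ((1/(ε^2/4*Np+1) : ℝ) : ℂ) * ((1/(ε^2/4*Nz+1) : ℝ) : ℂ) * (ε^2/4 * Q + 1) * α₃).re with hg
  have hgle : ∀ ε : ℝ, ε ≠ 0 → g ε ≤ r := by
    intro ε hε
    have hval := value M A (fun i => (x i : ℂ)) (fun j => (t:ℂ) * y j) u v (fun i => star (q i))
      (fun j => (t:ℂ) * z j) r ε (1/(ε^2/4*Np+1)) (1/(ε^2/4*Nz+1)) (by
        have : ∀ i, ∑ j, star (u i) * (M i j * A i j) * v j = r * (star (u i) * u i) := by
          intro i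
          have := h1 i
          calc _ = star (u i) * ∑ j, M i j * A i j * v j := by
                rw [Finset.mul_sum]; exact Finset.sum_congr rfl fun j _ => by ring
            _ = _ := by rw [this]; ring
        rw [Finset.sum_congr rfl fun i _ => this i, ← Finset.mul_sum]
        have h3 : ∑ i, star (u i) * u i = ((∑ i, ‖u i‖^2 : ℝ) : ℂ) := by
          push_cast
          refine Finset.sum_congr rfl fun i _ => ?_
          rw [← Complex.conj_mul']
          rfl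
        rw [h3, hu]; simp)
    beta_reduce at hval
    simp only [star_star] at hval
    have hst : ∀ w : ℂ, star ((t:ℂ) * w) = t * star w := by
      intro w
      simp only [star_mul', RCLike.star_def, Complex.conj_ofReal]
    have e1 : ∑ i, ∑ j, star (u i) * (M i j * (star (q i) * ∑ k, q k * A k j)) * v j = P := by
      rw [hP]
      refine Finset.sum_congr rfl fun i _ => ?_
      have : ∀ j, star (u i) * (M i j * (star (q i) * ∑ k, q k * A k j)) * v j
          = ∑ k, star (u i * q i) * q k * (M i j * A k j * v j) := by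
        intro j
        rw [Finset.mul_sum, Finset.mul_sum, Finset.mul_sum, Finset.sum_mul]
        refine Finset.sum_congr rfl fun k _ => ?_
        rw [star_mul']
        ring
      rw [Finset.sum_congr rfl fun j _ => this j, Finset.sum_comm]
      refine Finset.sum_congr rfl fun k _ => ?_
      rw [Finset.mul_sum]
    have e2 : ∑ i, star (u i) * (x i : ℂ) * star (q i) = ((Su/r : ℝ) : ℂ) := by
      rw [← hq2]
      refine Finset.sum_congr rfl fun i _ => ?_
      rw [star_mul']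
      ring
    have e3 : ∑ j, (t:ℂ) * y j * (∑ k, q k * A k j) * v j = t * c₃ := by
      rw [hc₃, Finset.mul_sum]
      exact Finset.sum_congr rfl fun j _ => by ring
    have e0 : ∀ i, ∑ k, A i k * ((t:ℂ) * z k) = t * ∑ k, A i k * z k := by
      intro i
      rw [Finset.mul_sum]
      exact Finset.sum_congr rfl fun j _ => by ring
    have e4 : ∑ i, ∑ j, star (u i) * (M i j * ((∑ k, A i k * ((t:ℂ) * z k)) * star ((t:ℂ) * z j)))
        * v j = Z := by
      rw [hZ, Finset.sum_comm]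
      refine Finset.sum_congr rfl fun j _ => ?_
      have : ∀ i, star (u i) * (M i j * ((∑ k, A i k * ((t:ℂ) * z k)) * star ((t:ℂ) * z j))) * v j
          = ∑ k, star (star (v j) * z j) * z k * (star (u i) * (M i j * A i k)) := by
        intro i
        rw [e0, hst, Finset.mul_sum, Finset.sum_mul, Finset.mul_sum, Finset.mul_sum, Finset.sum_mul]
        refine Finset.sum_congr rfl fun k _ => ?_
        rw [star_mul', star_star]
        linear_combination (star (u i) * M i j * A i k * z k * star (z j) * v j) * ht2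
      rw [Finset.sum_congr rfl fun i _ => this i, Finset.sum_comm]
      refine Finset.sum_congr rfl fun k _ => ?_
      rw [Finset.mul_sum]
    have e5 : ∑ i, star (u i) * (x i : ℂ) * (∑ k, A i k * ((t:ℂ) * z k)) = t * c₂ := by
      rw [hc₂, Finset.mul_sum]
      refine Finset.sum_congr rfl fun i _ => ?_
      rw [e0]
      ring
    have e6 : ∑ j, (t:ℂ) * y j * star ((t:ℂ) * z j) * v j = ((Sv/r : ℝ) : ℂ) := by
      rw [← hz2]
      refine Finset.sum_congr rfl fun i _ => ?_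
      rw [hst, star_mul', star_star]
      linear_combination (y i * star (z i) * v i) * ht2
    have e7 : ∑ i, ∑ j, star (u i) * (M i j * (star (q i) * star ((t:ℂ) * z j))) * v j
        = t * c₁ := by
      rw [hc₁, Finset.mul_sum]
      refine Finset.sum_congr rfl fun i _ => ?_
      rw [Finset.mul_sum]
      refine Finset.sum_congr rfl fun j _ => ?_
      rw [hst]
      ring
    rw [e1, e2, e3, e4, e5, e6, e7] at hval
    rw [← hQ] at hval
    set B : Matrix (Fin (n+1)) (Fin (n+1)) ℂ :=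
      refl (1/(ε^2/4*Np+1)) (ext (fun i => (ε/2 : ℂ) * star (q i)) 1) * bord A 0 0 1 *
          refl (1/(ε^2/4*Nz+1)) (ext (fun i => (ε/2 : ℂ) * ((t:ℂ) * z i)) 1) with hB
    have hBn : ‖B‖ ≤ 1 := by
      have n1 : ‖refl (1/(ε^2/4*Np+1)) (ext (fun i => (ε/2 : ℂ) * star (q i)) 1)‖ ≤ 1 := by
        refine norm_refl _ _ ?_
        rw [Fin.sum_univ_castSucc]
        simp only [ext_castSucc, ext_last, norm_mul, norm_star, norm_one, one_pow, mul_pow]
        rw [← Finset.mul_sum, ← hNp]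
        have : ‖(ε/2 : ℂ)‖^2 = ε^2/4 := by
          rw [norm_div, Complex.norm_real, Real.norm_eq_abs, div_pow, sq_abs]
          norm_num
        rw [this]
        have : ε^2/4*Np+1 ≠ 0 := by positivity
        field_simp
      have n2 : ‖refl (1/(ε^2/4*Nz+1)) (ext (fun i => (ε/2 : ℂ) * ((t:ℂ) * z i)) 1)‖ ≤ 1 := by
        refine norm_refl _ _ ?_
        rw [Fin.sum_univ_castSucc]
        have htn : ‖(t:ℂ)‖ = 1 := by rcases ht with h | h <;> rw [h] <;> simp
        simp only [ext_castSucc, ext_last, norm_mul, norm_one, one_pow, mul_pow, htn,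
          one_mul]
        rw [← Finset.mul_sum, ← hNz]
        have : ‖(ε/2 : ℂ)‖^2 = ε^2/4 := by
          rw [norm_div, Complex.norm_real, Real.norm_eq_abs, div_pow, sq_abs]
          norm_num
        rw [this]
        have : ε^2/4*Nz+1 ≠ 0 := by positivity
        field_simp
      have n3 := norm_bord A hA
      calc ‖B‖ ≤ ‖refl (1/(ε^2/4*Np+1)) (ext (fun i => (ε/2 : ℂ) * star (q i)) 1) *
            bord A 0 0 1‖ * ‖refl (1/(ε^2/4*Nz+1)) (ext (fun i => (ε/2 : ℂ) * ((t:ℂ) * z i)) 1)‖ :=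
            l2_opNorm_mul _ _
        _ ≤ (‖refl (1/(ε^2/4*Np+1)) (ext (fun i => (ε/2 : ℂ) * star (q i)) 1)‖ *
            ‖bord A 0 0 1‖) * ‖refl (1/(ε^2/4*Nz+1)) (ext (fun i => (ε/2 : ℂ) * ((t:ℂ) * z i)) 1)‖ :=
            mul_le_mul_of_nonneg_right (l2_opNorm_mul _ _) (norm_nonneg _)
        _ ≤ 1 := mul_le_one₀ (mul_le_one₀ n1 (norm_nonneg _) n3) (norm_nonneg _) n2
    have hsign : ∀ i j, bord M (fun i => (x i : ℂ)) (fun j => (t:ℂ) * y j) 1 i j = 1 ∨
        bord M (fun i => (x i : ℂ)) (fun j => (t:ℂ) * y j) 1 i j = -1 := by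
      intro i j
      refine Fin.lastCases ?_ (fun i => ?_) i
      · refine Fin.lastCases ?_ (fun j => ?_) j
        · left; simp
        · rw [bord_lc]
          rcases ht with h | h <;> rcases hy j with h' | h' <;> rw [h, h'] <;> simp
      · refine Fin.lastCases ?_ (fun j => ?_) j
        · rw [bord_cl]
          rcases hx i with h | h <;> rw [h] <;> simp
        · rw [bord_cc]; exact hM i j
    have hbound := form_le (bord M (fun i => (x i : ℂ)) (fun j => (t:ℂ) * y j) 1 ⊙ B)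
      (ext u ε) (ext v ε)
    have hnu : ∑ a, ‖ext u ε a‖^2 = 1 + ε^2 := by
      rw [Fin.sum_univ_castSucc]
      simp only [ext_castSucc, ext_last, Complex.norm_real, Real.norm_eq_abs, sq_abs, hu]
    have hnv : ∑ a, ‖ext v ε a‖^2 = 1 + ε^2 := by
      rw [Fin.sum_univ_castSucc]
      simp only [ext_castSucc, ext_last, Complex.norm_real, Real.norm_eq_abs, sq_abs, hv]
    rw [hnu, hnv, Real.mul_self_sqrt (by positivity), hval] at hbound
    have hMB := hR _ hsign B hBn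
    have h5 : (r + ε^2 * g ε : ℝ) ≤ r * (1 + ε^2) := by
      refine le_trans ?_ (le_trans hbound ?_)
      · refine le_trans (le_of_eq ?_) (Complex.re_le_norm _)
        have : (r + (ε:ℂ)^2
          - 2 * ((1/(ε^2/4*Np+1) : ℝ) : ℂ) * (ε^2 * (P/4 + ((Su/r : ℝ) : ℂ)/2 + t*c₃/2 + 1))
          - 2 * ((1/(ε^2/4*Nz+1) : ℝ) : ℂ) * (ε^2 * (Z/4 + t*c₂/2 + ((Sv/r : ℝ) : ℂ)/2 + 1))
          + 4 * ((1/(ε^2/4*Np+1) : ℝ) : ℂ) * ((1/(ε^2/4*Nz+1) : ℝ) : ℂ) * (ε^2/4 * Q + 1) *
            (ε^2 * (t*c₁/4 + ((Su/r : ℝ) : ℂ)/2 + ((Sv/r : ℝ) : ℂ)/2 + 1)))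
          = (r : ℂ) + ((ε^2 : ℝ) : ℂ) * (1 - 2 * ((1/(ε^2/4*Np+1) : ℝ) : ℂ) * α₁
    - 2 * ((1/(ε^2/4*Nz+1) : ℝ) : ℂ) * α₂
    + 4 * ((1/(ε^2/4*Np+1) : ℝ) : ℂ) * ((1/(ε^2/4*Nz+1) : ℝ) : ℂ) * (ε^2/4 * Q + 1) * α₃) := by
          rw [hα₁, hα₂, hα₃, Complex.ofReal_pow]
          ring
        rw [this, Complex.add_re, Complex.re_ofReal_mul, Complex.ofReal_re]
      · refine mul_le_mul_of_nonneg_right (hMB.trans hRr) (by positivity)
    have hε2 : 0 < ε^2 := by positivity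
    have h6 : ε^2 * g ε ≤ ε^2 * r := by linarith
    exact le_of_mul_le_mul_left h6 hε2
  have hcont : Continuous g := by
    have c1 : Continuous fun ε : ℝ => (1/(ε^2/4*Np+1) : ℝ) := by
      refine Continuous.div continuous_const (by fun_prop) fun ε => ?_
      positivity
    have c2 : Continuous fun ε : ℝ => (1/(ε^2/4*Nz+1) : ℝ) := by
      refine Continuous.div continuous_const (by fun_prop) fun ε => ?_
      positivity
    have c1' : Continuous fun ε : ℝ => ((1/(ε^2/4*Np+1) : ℝ) : ℂ) :=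
      Complex.continuous_ofReal.comp c1
    have c2' : Continuous fun ε : ℝ => ((1/(ε^2/4*Nz+1) : ℝ) : ℂ) :=
      Complex.continuous_ofReal.comp c2
    rw [hg]
    refine Complex.continuous_re.comp ?_
    fun_prop
  have h0 : g 0 ≤ r := by
    have hlim : Filter.Tendsto g (nhdsWithin 0 {0}ᶜ) (nhds (g 0)) :=
      (hcont.tendsto 0).mono_left nhdsWithin_le_nhds
    refine le_of_tendsto hlim ?_
    filter_upwards [self_mem_nhdsWithin] with ε hε
    exact hgle ε hε
  have hg0 : g 0 = 1 - 2 * α₁.re - 2 * α₂.re + 4 * α₃.re := by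
    have : g 0 = (1 - 2 * α₁ - 2 * α₂ + 4 * α₃).re := by
      rw [hg]
      beta_reduce
      congr 1
      simp
    rw [this]
    simp
  have r1 : α₁.re = P.re/4 + (Su/r)/2 + t * c₃.re/2 + 1 := by
    rw [hα₁]
    simp
  have r2 : α₂.re = Z.re/4 + t * c₂.re/2 + (Sv/r)/2 + 1 := by
    rw [hα₂]
    simp
  have r3 : α₃.re = t * c₁.re/4 + (Su/r)/2 + (Sv/r)/2 + 1 := by
    rw [hα₃]
    simp
  rw [hg0, r1, r2, r3] at h0
  have hSur : r ≤ Su / r := by rw [le_div_iff₀ hr]; nlinarith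
  have hSvr : r ≤ Sv / r := by rw [le_div_iff₀ hr]; nlinarith
  have hcr : (c₁ - c₂ - c₃).re = c₁.re - c₂.re - c₃.re := by simp
  rw [hcr] at htc
  nlinarith

/-- A norming pair for a nonzero matrix. -/
lemma exists_pair {n : ℕ} (hn : 1 ≤ n) (T : Matrix (Fin n) (Fin n) ℂ) (r : ℝ) (hr : 0 < r)
    (hT : ‖T‖ = r) : ∃ u v : Fin n → ℂ, ∑ i, ‖u i‖^2 = 1 ∧ ∑ i, ‖v i‖^2 = 1 ∧
      (∀ i, ∑ j, T i j * v j = r * u i) ∧ (∀ j, ∑ i, star (u i) * T i j = r * star (v j)) := by
  have : Nonempty (Fin n) := ⟨⟨0, hn⟩⟩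
  set L : EuclideanSpace ℂ (Fin n) →L[ℂ] EuclideanSpace ℂ (Fin n) :=
    toEuclideanCLM (n := Fin n) (𝕜 := ℂ) T with hL
  have hLn : ‖L‖ = r := by rw [hL, l2_opNorm_toEuclideanCLM, hT]
  obtain ⟨v, hvmem, hvmax⟩ := (isCompact_sphere (0 : EuclideanSpace ℂ (Fin n)) 1).exists_isMaxOn
    (NormedSpace.sphere_nonempty.2 zero_le_one) (f := fun x => ‖L x‖)
    (L.continuous.norm.continuousOn)
  have hv1 : ‖v‖ = 1 := by simpa using hvmem
  have hle : ‖L‖ ≤ ‖L v‖ := by
    refine ContinuousLinearMap.opNorm_le_bound _ (norm_nonneg _) fun x => ?_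
    by_cases hx : x = 0
    · simp [hx]
    · have hx' : ‖x‖ ≠ 0 := norm_ne_zero_iff.2 hx
      have hm : ((‖x‖⁻¹ : ℝ) : ℂ) • x ∈ Metric.sphere (0 : EuclideanSpace ℂ (Fin n)) 1 := by
        rw [mem_sphere_zero_iff_norm, norm_smul, Complex.norm_real, norm_inv, norm_norm,
          inv_mul_cancel₀ hx']
      have h3 : ‖L (((‖x‖⁻¹ : ℝ) : ℂ) • x)‖ ≤ ‖L v‖ := hvmax hm
      rw [map_smul, norm_smul, Complex.norm_real, norm_inv, norm_norm] at h3
      have h4 : ‖L x‖ = ‖x‖ * (‖x‖⁻¹ * ‖L x‖) := by field_simp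
      rw [h4, mul_comm]
      exact mul_le_mul_of_nonneg_right h3 (norm_nonneg _)
  have hLv : ‖L v‖ = r := by
    refine le_antisymm ?_ (hLn ▸ hle)
    have := L.le_opNorm v
    rwa [hLn, hv1, mul_one] at this
  have hrC : (r:ℂ) ≠ 0 := by exact_mod_cast hr.ne'
  set u : EuclideanSpace ℂ (Fin n) := ((r⁻¹ : ℝ) : ℂ) • L v with hu
  have hu1 : ‖u‖ = 1 := by
    rw [hu, norm_smul, hLv, Complex.norm_real, norm_inv, Real.norm_eq_abs, abs_of_pos hr,
      inv_mul_cancel₀ hr.ne']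
  have hLvu : L v = (r:ℂ) • u := by
    rw [hu, smul_smul]
    push_cast
    rw [mul_inv_cancel₀ hrC, one_smul]
  have hadj : ContinuousLinearMap.adjoint L u = (r:ℂ) • v := by
    have h5 : ‖ContinuousLinearMap.adjoint L u - (r:ℂ) • v‖^2 ≤ 0 := by
      rw [norm_sub_sq (𝕜 := ℂ), inner_smul_right, ContinuousLinearMap.adjoint_inner_left, hLvu,
        inner_smul_right, inner_self_eq_norm_sq_to_K, hu1, norm_smul, hv1, Complex.norm_real,
        Real.norm_eq_abs, abs_of_pos hr]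
      have h6 : ‖ContinuousLinearMap.adjoint L u‖ ≤ r := by
        have := (ContinuousLinearMap.adjoint L).le_opNorm u
        rwa [hu1, mul_one, LinearIsometryEquiv.norm_map, hLn] at this
      have h7 : ‖ContinuousLinearMap.adjoint L u‖^2 ≤ r^2 :=
        pow_le_pow_left₀ (norm_nonneg _) h6 2
      simp
      nlinarith
    have h6 : ‖ContinuousLinearMap.adjoint L u - (r:ℂ) • v‖ = 0 := by
      have := sq_nonneg ‖ContinuousLinearMap.adjoint L u - (r:ℂ) • v‖
      have h7 : ‖ContinuousLinearMap.adjoint L u - (r:ℂ) • v‖^2 = 0 := le_antisymm h5 this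
      exact pow_eq_zero_iff (two_ne_zero) |>.1 h7
    exact sub_eq_zero.1 (norm_eq_zero.1 h6)
  refine ⟨u.ofLp, v.ofLp, ?_, ?_, ?_, ?_⟩
  · have := EuclideanSpace.norm_sq_eq u
    rw [← this, hu1]; norm_num
  · have := EuclideanSpace.norm_sq_eq v
    rw [← this, hv1]; norm_num
  · intro i
    have := congrArg (fun w : EuclideanSpace ℂ (Fin n) => w.ofLp i) hLvu
    simpa [hL, Matrix.mulVec, dotProduct] using this
  · intro j
    have h8 : ContinuousLinearMap.adjoint L = toEuclideanCLM (n := Fin n) (𝕜 := ℂ) Tᴴ := by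
      rw [hL]
      exact (map_star (toEuclideanCLM (n := Fin n) (𝕜 := ℂ)) T).symm
    rw [h8] at hadj
    have := congrArg (fun w : EuclideanSpace ℂ (Fin n) => star (w.ofLp j)) hadj
    simp only [ofLp_toEuclideanCLM, Matrix.mulVec, dotProduct, Matrix.conjTranspose_apply,
      star_sum, star_mul', star_star, PiLp.smul_apply, smul_eq_mul] at this
    rw [← Finset.sum_congr rfl fun i _ => mul_comm (T i j) (star (u.ofLp i)), this]
    simp

lemma schurNorm_isGreatest {n : ℕ} (M : Matrix (Fin n) (Fin n) ℂ) :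
    IsGreatest {x : ℝ | ∃ A : Matrix (Fin n) (Fin n) ℂ, ‖A‖ ≤ 1 ∧ x = ‖M ⊙ A‖} (schurNorm M) := by
  have : ProperSpace (Matrix (Fin n) (Fin n) ℂ) := FiniteDimensional.proper ℂ _
  have hcont : Continuous fun A : Matrix (Fin n) (Fin n) ℂ => ‖M ⊙ A‖ := by
    refine continuous_norm.comp ?_
    refine continuous_matrix fun i j => ?_
    simp only [Matrix.hadamard_apply]
    exact continuous_const.mul (continuous_id.matrix_elem i j)
  obtain ⟨A, hA, hmax⟩ := (isCompact_closedBall (0 : Matrix (Fin n) (Fin n) ℂ) 1).exists_isMaxOn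
    ⟨0, by simp⟩ hcont.continuousOn
  have hg : IsGreatest {x : ℝ | ∃ A : Matrix (Fin n) (Fin n) ℂ, ‖A‖ ≤ 1 ∧ x = ‖M ⊙ A‖}
      ‖M ⊙ A‖ := by
    refine ⟨⟨A, by simpa using hA, rfl⟩, ?_⟩
    rintro x ⟨B, hB, rfl⟩
    exact hmax (by simpa using hB)
  unfold schurNorm
  rw [hg.csSup_eq]
  exact hg

lemma r_isGreatest (n : ℕ) :
    IsGreatest {x : ℝ | ∃ M : Matrix (Fin n) (Fin n) ℂ, IsSign M ∧ x = schurNorm M} (r n) := by
  have hfin : {M : Matrix (Fin n) (Fin n) ℂ | IsSign M}.Finite := by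
    have h1 : {M : Fin n → Fin n → ℂ | ∀ i, M i ∈ {f : Fin n → ℂ | ∀ j, f j ∈ ({1, -1} : Set ℂ)}}.Finite :=
      Set.Finite.pi' fun i => Set.Finite.pi' fun j => by simp
    exact h1.subset fun M hM => fun i j => hM i j
  have hfin2 : {x : ℝ | ∃ M : Matrix (Fin n) (Fin n) ℂ, IsSign M ∧ x = schurNorm M}.Finite := by
    refine (hfin.image schurNorm).subset ?_
    rintro x ⟨M, hM, rfl⟩
    exact ⟨M, hM, rfl⟩
  have hne : {x : ℝ | ∃ M : Matrix (Fin n) (Fin n) ℂ, IsSign M ∧ x = schurNorm M}.Nonempty :=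
    ⟨_, fun _ _ => 1, fun _ _ => Or.inl rfl, rfl⟩
  exact ⟨hne.csSup_mem hfin2, fun x hx => le_csSup hfin2.bddAbove hx⟩

theorem result :
    (∀ (n : ℕ) (M : Matrix (Fin n) (Fin n) ℂ),
      IsGreatest {x : ℝ | ∃ A : Matrix (Fin n) (Fin n) ℂ, ‖A‖ ≤ 1 ∧ x = ‖M ⊙ A‖} (schurNorm M)) ∧
    (∀ n : ℕ,
      IsGreatest {x : ℝ | ∃ M : Matrix (Fin n) (Fin n) ℂ, IsSign M ∧ x = schurNorm M} (r n)) ∧
    (∀ n : ℕ, 1 ≤ n → r n < r (n + 1)) := by
  refine ⟨fun n M => schurNorm_isGreatest M, r_isGreatest, fun n hn => ?_⟩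
  obtain ⟨M, hM, hMr⟩ := (r_isGreatest n).1
  obtain ⟨A, hA, hAM⟩ := (schurNorm_isGreatest M).1
  have hpos : 0 < r n := by
    have h1 : ‖(1 : Matrix (Fin n) (Fin n) ℂ)‖ ≤ 1 := by
      refine norm_le_one_of _ fun b => ?_
      simp
    have h2 : ‖M ⊙ (1 : Matrix (Fin n) (Fin n) ℂ)‖ ≤ r n := by
      rw [hMr]
      exact (schurNorm_isGreatest M).2 ⟨1, h1, rfl⟩
    refine lt_of_lt_of_le (norm_pos_iff.2 fun h => ?_) h2
    have h3 := congrFun (congrFun h ⟨0, hn⟩) ⟨0, hn⟩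
    rw [Matrix.hadamard_apply, Matrix.one_apply_eq, mul_one] at h3
    rcases hM ⟨0, hn⟩ ⟨0, hn⟩ with h4 | h4 <;> rw [h4] at h3 <;> simp at h3
  obtain ⟨u, v, hu, hv, h1, h2⟩ := exists_pair hn (M ⊙ A) (r n) hpos (by rw [hMr, hAM])
  refine key M A hM hA (r n) hpos u v hu hv h1 h2 (r (n+1)) ?_
  intro M' hM' B hB
  exact le_trans ((schurNorm_isGreatest M').2 ⟨B, hB, rfl⟩) ((r_isGreatest (n+1)).2 ⟨M', hM', rfl⟩)

end Pool.Agent.Results.MP_c77999_an.StrictlyIncreasing
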